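import Pool.Agent.H169R3.KL.Clq
import Pool.Agent.H169R3.KL.Rig

set_option autoImplicit false

/-!
# Appending conjugated distinguished involutions: a counterexample

Let `(W, S)` be the right-angled Coxeter system with `S = {a, g, b, d, r}` in which `a, g` both
commute with `b, d` and there are no other commuting pairs, so that
`W = (D_∞ × D_∞) * ℤ/2`; it is infinite and irreducible.  For `w = v_0 = a b`, `x = e` and
`u = v_1 = g d` all hypotheses of Q1 hold (and `v_1` is even maximal in `w' = w u`), but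
`μ(w, w' v_{01}⁻¹) = 0` for each of the four suffixes `v_{01}` of `v_0`.
-/

namespace Pool.Agent.Results.MP_28e63a_al.AppendFails

open Module Pool.Agent.Helper703.KL Pool.Agent.H169R3.KL

/-- The Coxeter matrix: `m(i, j) = ∞` (encoded as `0`) if one of `i, j` is `4`, or if
`{i, j}` is `{0, 1}` or `{2, 3}`; all other pairs commute. -/
def M5 : CoxeterMatrix (Fin 5) where
  M := Matrix.of fun i j => if i = j then 1 else
    if i = 4 ∨ j = 4 ∨ i.val / 2 = j.val / 2 then 0 else 2
  isSymm := by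
    ext i j
    fin_cases i <;> fin_cases j <;> rfl
  diagonal := by
    intro i
    simp
  off_diagonal := by
    intro i j h
    simp only [Matrix.of_apply, h, if_false]
    split_ifs <;> norm_num

instance (i j : Fin 5) (n : ℕ) : Decidable (M5 i j = n) :=
  inferInstanceAs (Decidable (@Eq ℕ (M5 i j) n))

lemma ra5 : RA M5 := by
  have : ∀ i j : Fin 5, i ≠ j → M5 i j = 2 ∨ M5 i j = 0 := by decide
  exact this

lemma triple5 : ∀ i j k : Fin 5, i ≠ j → i ≠ k → j ≠ k → M5 i j = 2 → M5 i k = 2 → M5 j k = 2 →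
    False := by
  decide

lemma clq5 (Q : List (Fin 5)) (hQ : Clq M5 Q) : Q.length ≤ 2 := by
  match Q, hQ with
  | [], _ => simp
  | [_], _ => simp
  | [_, _], _ => simp
  | i :: j :: k :: Q, hQ =>
    exfalso
    have h1 := hQ.1
    simp only [List.nodup_cons, List.mem_cons, not_or] at h1
    exact triple5 i j k h1.1.1 h1.1.2.1 h1.2.1.1 (hQ.2 i (by simp) j (by simp) h1.1.1)
      (hQ.2 i (by simp) k (by simp) h1.1.2.1) (hQ.2 j (by simp) k (by simp) h1.2.1.1)

lemma irred5 : Irred M5 := by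
  intro s ⟨i, hi⟩ ⟨j, hj⟩
  have h4 : ∀ k : Fin 5, M5 4 k ≠ 2 ∧ M5 k 4 ≠ 2 := by decide
  by_cases h : (4 : Fin 5) ∈ s
  · exact ⟨4, h, j, hj, (h4 j).1⟩
  · exact ⟨i, hi, 4, h, (h4 i).2⟩

/-- a map to the infinite dihedral group -/
def f5 (i : Fin 5) : DihedralGroup 0 :=
  if i = 0 then .sr 0 else if i = 1 then .sr 1 else 1

lemma infinite5 {W : Type} [Group W] (cs : CoxeterSystem M5 W) : Infinite W := by
  let f := f5
  have hf : M5.IsLiftable f := by
    have : ∀ i j : Fin 5, (f5 i * f5 j) ^ (M5 i j) = 1 := by decide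
    exact this
  by_contra hcon
  rw [not_infinite_iff_finite] at hcon
  have h1 : IsOfFinOrder (cs.simple 0 * cs.simple 1) := isOfFinOrder_of_finite _
  have h2 := (cs.lift ⟨f, hf⟩).isOfFinOrder h1
  rw [map_mul, cs.lift_apply_simple hf, cs.lift_apply_simple hf] at h2
  have h3 : f 0 * f 1 = DihedralGroup.r 1 := by
    show f5 0 * f5 1 = DihedralGroup.r 1
    decide
  rw [h3, ← orderOf_pos_iff, DihedralGroup.orderOf_r_one] at h2
  exact lt_irrefl _ h2

variable {W : Type} [Group W] {cs : CoxeterSystem M5 W}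

/-- the four `μ` values vanish -/
lemma mu5 (K : KLData cs) (Q : List (Fin 5)) (hQ : Q.Sublist [0, 2]) :
    K.mu (cs.wordProd [0, 2]) (cs.wordProd [0, 2] * cs.wordProd [1, 3] * (cs.wordProd Q)⁻¹)
      = 0 := by
  have e : cs.wordProd [0, 2] * cs.wordProd [1, 3] * (cs.wordProd Q)⁻¹ =
      cs.wordProd ([0, 2, 1, 3] ++ Q.reverse) := by
    rw [cs.wordProd_append, cs.wordProd_reverse, ← cs.wordProd_append]
    rfl
  rw [e]
  have hQ' : Q ∈ List.sublists [(0 : Fin 5), 2] := List.mem_sublists.2 hQ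
  have l0 : cs.length (cs.wordProd [0, 2]) = 2 := len_word ra5 (by decide)
  have hs : List.sublists [(0 : Fin 5), 2] = [[], [0], [2], [0, 2]] := by decide
  rw [hs] at hQ'
  simp only [List.mem_cons, List.not_mem_nil, or_false] at hQ'
  rcases hQ' with rfl | rfl | rfl | rfl
  · have l1 : cs.length (cs.wordProd ([0, 2, 1, 3] ++ ([] : List (Fin 5)).reverse)) = 4 :=
      len_word ra5 (by decide)
    exact mu_desc K (by omega) 1 (rdesc_word ra5 (by decide) (by decide))
      (rasc_word ra5 (by decide) (by decide)) (by omega)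
  · have l1 : cs.length (cs.wordProd ([0, 2, 1, 3] ++ [(0 : Fin 5)].reverse)) = 5 :=
      len_word ra5 (by decide)
    exact mu_desc K (by omega) 3 (rdesc_word ra5 (by decide) (by decide))
      (rasc_word ra5 (by decide) (by decide)) (by omega)
  · have l1 : cs.length (cs.wordProd ([0, 2, 1, 3] ++ [(2 : Fin 5)].reverse)) = 5 :=
      len_word ra5 (by decide)
    exact mu_desc K (by omega) 1 (rdesc_word ra5 (by decide) (by decide))
      (rasc_word ra5 (by decide) (by decide)) (by omega)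
  · have l1 : cs.length (cs.wordProd ([0, 2, 1, 3] ++ [(0 : Fin 5), 2].reverse)) = 6 :=
      len_word ra5 (by decide)
    exact mu_even K (by omega) (by rw [l0, l1]; decide)

lemma clq02 : Clq M5 [0, 2] := ⟨by decide, by decide⟩
lemma clq13 : Clq M5 [1, 3] := ⟨by decide, by decide⟩

lemma hyp5 (K : KLData cs) : K.Hyp (cs.wordProd [0, 2]) 1 (cs.wordProd [0, 2])
    (cs.wordProd [1, 3]) 1 (cs.wordProd [1, 3]) := by
  have l0 : cs.length (cs.wordProd [0, 2]) = 2 := len_word ra5 (by decide)
  have l1 : cs.length (cs.wordProd [1, 3]) = 2 := len_word ra5 (by decide)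
  have l2 : cs.length (cs.wordProd [0, 2] * cs.wordProd [1, 3]) = 4 := by
    rw [← cs.wordProd_append]
    exact len_word ra5 (by decide)
  have hD := D_clq K ra5 clq5 clq13 (by decide) (by decide) (by decide)
  have ha0 := a_clq K ra5 clq5 clq02 (by decide)
  have ha1 := a_clq K ra5 clq5 clq13 (by decide)
  refine ⟨⟨⟨by simp, by simp, inFinPar_clq clq02⟩, ?_⟩, by simp, by simp, hD.1, hD, ?_, ?_, ?_, ?_⟩
  · rintro ⟨x', v', y', h1, _, _, _, h2⟩
    have := h1.2.1
    omega
  · intro h
    rw [h, cs.length_one] at l1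
    omega
  · rw [ha0, ha1]; rfl
  · unfold Red; rw [l2, l0, l1]
  · rw [ha0]
    apply le_antisymm
    · exact a_le_N K ra5 clq5 _
    · refine a_lower K ra5 _ [0, 2] clq02 ?_
      intro i hi
      rw [← cs.wordProd_append]
      simp only [List.mem_cons, List.not_mem_nil, or_false] at hi
      rcases hi with rfl | rfl
      · exact ldesc_word ra5 (by decide) (by decide)
      · exact ldesc_word ra5 (by decide) (by decide)

lemma max5 : MaxAt cs (cs.wordProd [0, 2] * cs.wordProd [1, 3]) (cs.wordProd [0, 2])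
    (cs.wordProd [1, 3]) 1 := by
  have l0 : cs.length (cs.wordProd [0, 2]) = 2 := len_word ra5 (by decide)
  have l1 : cs.length (cs.wordProd [1, 3]) = 2 := len_word ra5 (by decide)
  have l2 : cs.length (cs.wordProd [0, 2] * cs.wordProd [1, 3]) = 4 := by
    rw [← cs.wordProd_append]
    exact len_word ra5 (by decide)
  refine ⟨⟨by simp, by rw [l2, l0, l1, cs.length_one], inFinPar_clq clq13⟩, ?_⟩
  rintro ⟨x', v', y', h1, _, _, _, h2⟩
  obtain ⟨Q, hQ, hv⟩ := inFinPar_le ra5 h1.2.2
  have h3 := hQ.length (cs := cs) ra5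
  have h4 := clq5 Q hQ
  rw [hv, h3, l1] at h2
  omega

/-- The Coxeter matrix `M5` is irreducible, and every Coxeter system `(W, S)` of type `M5` is
infinite, has Kazhdan-Lusztig data, and the statement of Q1 fails for it.  More precisely,
`w = v_0 = a b`, `y = x = e` and `u = v_1 = g d` satisfy all hypotheses of Q1, `v_1` is maximal in
`w' = w u`, and `μ(w, w' v_{01}⁻¹) = 0` for every suffix `v_{01}` of `v_0`; so no `v_{01}`
satisfies the conclusion.  Here `a, g, b, d` are the generators `0, 1, 2, 3`. -/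
theorem result :
    Irred M5 ∧ ∀ (W : Type) [Group W] (cs : CoxeterSystem M5 W),
      Infinite W ∧ Nonempty (KLData cs) ∧ ∀ K : KLData cs, ¬ K.Statement ∧
        ∀ w u : W, w = cs.simple 0 * cs.simple 2 → u = cs.simple 1 * cs.simple 3 →
          K.Hyp w 1 w u 1 u ∧ MaxAt cs (w * u) w u 1 ∧
            ∀ v0' v01, w = v0' * v01 → Red cs v0' v01 → K.mu w (w * u * v01⁻¹) = 0 := by
  refine ⟨irred5, ?_⟩
  intro W _ cs
  refine ⟨infinite5 cs, exists_KLData cs, ?_⟩
  intro K
  have key : ∀ v0' v01, cs.wordProd [0, 2] = v0' * v01 → Red cs v0' v01 →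
      K.mu (cs.wordProd [0, 2]) (cs.wordProd [0, 2] * cs.wordProd [1, 3] * v01⁻¹) = 0 := by
    intro v0' v01 h1 h2
    obtain ⟨ω', h3, h4⟩ := suffix_word _ [0, 2] v0' v01 rfl h1.symm h2
    rw [h4]
    exact mu5 K ω' h3
  refine ⟨?_, ?_⟩
  · intro hQ
    obtain ⟨v01, hc⟩ := hQ _ _ _ _ _ _ (hyp5 K)
    obtain ⟨v0', h1, h2⟩ := hc.suffix
    exact hc.mu_ne (key v0' v01 h1 h2)
  · intro w u hw hu
    have e1 : cs.simple 0 * cs.simple 2 = cs.wordProd [0, 2] := by
      simp [cs.wordProd_cons]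
    have e2 : cs.simple 1 * cs.simple 3 = cs.wordProd [1, 3] := by
      simp [cs.wordProd_cons]
    rw [hw, hu, e1, e2]
    exact ⟨hyp5 K, max5, key⟩

end Pool.Agent.Results.MP_28e63a_al.AppendFails
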